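import Pool.Agent.J4.H5.PF.Few

/-!
# Parshin's conjecture for all products of at most eight Artin-Schreier curves `y ^ q - y = x ^ m`,
# for most exponents `m`

Let `k` be the finite field with `q` elements and characteristic `p`, and let `m` divide `q - 1`.
The motive `h^1` of the smooth projective curve `C` with the equation `y ^ q - y = x ^ m` is, with
coefficients in a cyclotomic field, the sum of lines indexed by the pairs of a nontrivial power
`θ ^ a` of a multiplicative character `θ` of order `m` and a nontrivial additive character `ψ` of
`k`; the Frobenius map of `k` acts on a line by minus the Gauss sum of the pair (Davenport, Hasse,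
Weil). So the motive of a product of `n` curves `C` is a sum of Tate twists of tensor products of at
most `n` such lines. By Soule, Geisser and Kahn the higher rational K-groups of such a tensor product
vanish if it is not of Tate type over any finite field, and also if it is of Tate type and its Tate
class is algebraic.

The theorem. Let `f` be the order of `p` modulo `m` and let it be odd (for example `f = 1`, that is
`p` congruent to one modulo `m`). Let `K` be arbitrary and let the degree `m` satisfy
`GoodDegree (K * f) m`, a condition on the pairs of prime factors of `m` that are at most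
`4 * K * f + 1`. There is no condition on the larger prime factors of `m`. Then EVERY tensor product of at most `K`
lines which is of Tate type (`TateLines`) is reduced (`ReducedLines`): after raising `m` to a multiple
prime to `p` and after adding Frobenius pairs `{b, -p b}` (Tate's theorem on divisors) the exponents
form a member of the closure of the characters of Fermat surfaces (Tate, Shioda and Katsura), of the
standard characters of Aoki, and of the Hodge characters known over the complex numbers
(`KnownOverC`: their classes are algebraic over the complex numbers, and so by reduction in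
characteristic `p`). So the Tate class is algebraic, and Parshin's conjecture holds for all products
of at most `K` curves `y ^ q - y = x ^ m`, and for all Fermat varieties of degree `m` and dimension at
most `K - 2`, over all finite fields of characteristic `p`.

For `K = 8` and `p` congruent to one modulo `m` the condition is satisfied if `m` is odd or not
divisible by any of `68, 110, 130, 138, 170, 174, 186, 420`. Known before: products of at most three
curves (Soule), and products of arbitrarily many of these curves for exponents `m` with few small
prime factors (for example prime powers).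

The proof. By Stickelberger's theorem the union of the conjugates `p ^ j s`, `j < f`, of the
multiset `s` of the exponents is a Hodge character with `f * |s|` entries. So it is known over the
complex numbers by the theorem of `Pool.Agent.J4.H26.Ew.All4`. It is `f s` modulo Frobenius pairs,
without any condition on the sum of `s`; and twice `s` is generated in every case by surfaces and
standard characters (`Pool.Agent.J4.H5.AS`). As `f` is odd, `s` is reduced.
-/

set_option autoImplicit false

namespace Pool.Agent.Results.MP_27fd67_ag.FewArtinSchreierCurves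

open Pool.Agent Pool.Agent.H916T Pool.Agent.J4.H26.Ew
open Pool.Agent.H916R2 (IsHodge)
open Pool.Agent.Y2.Cv (SurfaceOrCurveProduct)

/-- The lines of `h^1` of the curve `y ^ q - y = x ^ m`: pairs of a nonzero exponent `a` and a
nontrivial additive character `ψ`. -/
abbrev Line (k : Type) [Field k] (m : ℕ) : Type :=
  {a : ZMod m // a ≠ 0} × {ψ : AddChar k ℂ // ψ ≠ 1}

/-- The Gauss sum `g(θ ^ a, ψ)` of a line. -/
noncomputable def gauss {k : Type} [Field k] [Fintype k] {m : ℕ} (θ : MulChar k ℂ)
    (x : Line k m) : ℂ := gaussSum (θ ^ x.1.1.val) x.2.1

/-- The tensor product of the `2 i` lines is of Tate type over some finite field: some power of the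
product of the Gauss sums is the same power of `q ^ i`. -/
def TateLines {k : Type} [Field k] [Fintype k] {m : ℕ} (θ : MulChar k ℂ) {i : ℕ}
    (x : Fin (2 * i) → Line k m) : Prop :=
  ∃ e : ℕ, 0 < e ∧ (∏ j, gauss θ (x j)) ^ e = ((Fintype.card k : ℂ) ^ i) ^ e

/-- The multisets of residues modulo `M` which come by multiplication by `c = M / d` from a Hodge
character of a degree `d ∣ M` which, in the degree `d` or `2 * d`, is in the closure of the pairs, the
standard characters of Aoki and Shioda, the characters of Fermat surfaces and the curve products. -/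
def KnownOverC (M : ℕ) (t : Multiset (ZMod M)) : Prop :=
  ∃ c d : ℕ, c * d = M ∧ ∃ s : Multiset (ZMod d), IsHodge d s ∧
    H916R2.Generated (evenDegree d) (SurfaceOrCurveProduct (evenDegree d)) (s.map (raise d)) ∧
    t = s.map fun a => ((c * a.val : ℕ) : ZMod M)

/-- After raising `m` to a multiple `N * m`, `N` prime to `p`, and adding pairs `{b, -p b}` the
exponents form a member of the closure of the Tate characters of surfaces, the standard characters
of Aoki and the Hodge characters known over the complex numbers. -/
def ReducedLines {k : Type} [Field k] {m : ℕ} (p : ℕ) {i : ℕ} (x : Fin (2 * i) → Line k m) :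
    Prop :=
  ∃ N : ℕ, 0 < N ∧ p.Coprime N ∧ ∃ t : Multiset (ZMod (N * m)), (0 : ZMod (N * m)) ∉ t ∧
    Generated (N * m)
      (fun t => SurfaceTate p (N * m) t ∨ (∃ q : ℕ, q.Prime ∧ q ∣ N * m ∧ Standard q (N * m) t) ∨
        KnownOverC (N * m) t)
      ((Finset.univ.val.map fun j => (x j).1.1).map
          (fun a => ((N * a.val : ℕ) : ZMod (N * m))) +
        (t + t.map fun b => -((p : ZMod (N * m)) * b)))

/-- The condition on the degree `m` and the number `K` of entries: two different odd primes `q < r`
with `q * r ∣ m` and `r ≤ K + 1`, or `q = 3` and `r ≤ 2 * K + 1` (if `m` is even: `r ≤ 4 * K + 1`), or `m`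
even, `q = 5` and `r ≤ 2 * K + 1`, have a product in `{15, 21, 33, 35, 39, 51, 57}`, and if `4 ∣ m` then
`105` does not divide `m` and the primes `≤ 2 * K + 1` which divide `m` are in `{2, 3, 5, 7, 11, 13}`
(`PairsKnown`); or `K ≤ 8` and `m` is odd or not divisible by any of
`68, 110, 130, 138, 170, 174, 186, 420`. -/
def GoodDegree (K m : ℕ) : Prop :=
  PairsKnown K m ∨ (K ≤ 8 ∧ (m % 2 = 1 ∨
    ∀ n ∈ ({68, 110, 130, 138, 170, 174, 186, 420} : Finset ℕ), ¬ n ∣ m))

lemma pairsKnown_mono {K K' m : ℕ} (h : K ≤ K') (hm : PairsKnown K' m) : PairsKnown K m := by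
  refine ⟨fun p q hp hq hp3 hpq hd hc => hm.1 p q hp hq hp3 hpq hd ?_,
    fun h4 => ⟨(hm.2 h4).1, fun q hq hqm hqK => (hm.2 h4).2 q hq hqm (by omega)⟩⟩
  rcases hc with h1 | ⟨h1, h2⟩ | ⟨h1, h2, h3⟩ | ⟨h1, h2, h3⟩
  · exact Or.inl (by omega)
  · exact Or.inr (Or.inl ⟨h1, by omega⟩)
  · exact Or.inr (Or.inr (Or.inl ⟨h1, h2, by omega⟩))
  · exact Or.inr (Or.inr (Or.inr ⟨h1, h2, by omega⟩))

/-- **All tensor products of Tate type of at most `K` lines, `p` of odd order modulo `m`.** -/
theorem result (p m K i : ℕ) [Fact p.Prime] [NeZero m] (hi : 0 < i) (hiK : 2 * i ≤ K)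
    (hodd : Odd (orderOf (p : ZMod m))) (hC : GoodDegree (K * orderOf (p : ZMod m)) m)
    (k : Type) [Field k] [Fintype k] [CharP k p] (hmk : m ∣ Fintype.card k - 1)
    (θ : MulChar k ℂ) (hθ : orderOf θ = m) (x : Fin (2 * i) → Line k m) (hx : TateLines θ x) :
    ReducedLines p x := by
  have hm : 0 < m := Nat.pos_of_ne_zero (NeZero.ne m)
  have hPK : PairsKnown (K * orderOf (p : ZMod m)) m := by
    rcases hC with h | ⟨h1, h2⟩
    · exact h
    · exact pairsKnown_mono h1 (pairsKnown_eight.mpr h2)
  obtain ⟨e, he, h⟩ := hx
  obtain ⟨hpm, hrel⟩ := J4.H5.AS.rel_of_tuple hmk θ hθ i (fun j => (x j).1.1)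
    (fun j => (x j).1.2) (fun j => (x j).2.1) (fun j => (x j).2.2) e he hi h
  have hcard : Multiset.card (Finset.univ.val.map fun j => (x j).1.1) = 2 * i := by
    rw [Multiset.card_map]
    simp
  have h0 : (0 : ZMod m) ∉ Finset.univ.val.map fun j => (x j).1.1 := by
    intro h0
    obtain ⟨j, -, hj⟩ := Multiset.mem_map.mp h0
    exact (x j).1.2 hj
  have hne : (Finset.univ.val.map fun j => (x j).1.1) ≠ 0 := by
    intro h0
    rw [h0, Multiset.card_zero] at hcard
    omega
  obtain ⟨N, hN, hpN, t, ht, hg⟩ := J4.H5.PF.few (K := K) Fact.out hm hpm hodd hPK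
    (s := Finset.univ.val.map fun j => (x j).1.1) h0 (by rw [hcard]; exact ⟨i, by omega⟩) hne hrel
    (by rw [hcard]; exact hiK)
  refine ⟨N, hN, hpN, t, ht, J4.H5.PF.gen_mono (fun t ht => ?_) hg⟩
  rcases ht with (h1 | h1) | h1
  · exact Or.inl h1
  · exact Or.inr (Or.inl h1)
  · exact Or.inr (Or.inr h1)

end Pool.Agent.Results.MP_27fd67_ag.FewArtinSchreierCurves
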