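import Pool.Agent.J4.H17.KE.Final
import Pool.Agent.J4.H5.AS.Free
import Pool.Agent.J4.H5.AS.Main

/-!
# Parshin's conjecture for products of Artin-Schreier curves `y ^ q - y = x ^ m` and Fermat varieties, when
# the characteristic generates a small subgroup modulo the prime factors of `m`

Let `k` be the finite field with `q` elements and characteristic `p`, and let `m` divide `q - 1`.
The motive `h^1` of the smooth projective curve `C` with the equation `y ^ q - y = x ^ m` is, with
coefficients in a cyclotomic field, the sum of lines indexed by the pairs of a nontrivial power
`θ ^ a` of a multiplicative character `θ` of order `m` and a nontrivial additive character `ψ` of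
`k`; the Frobenius map of `k` acts on a line by minus the Gauss sum of the pair (Davenport, Hasse,
Weil). So the motive of a product of `n` curves `C` is a sum of Tate twists of tensor products of at
most `n` such lines. By Soule, Geisser and Kahn the higher rational K-groups of such a tensor product
vanish if it is not of Tate type over any finite field, and also if it is of Tate type and its Tate
class is algebraic.

The theorem. Let `m` be not divisible by four, `K = 2 i` (`K = 4 i` if `m` is even), and suppose that for
every odd prime `r` dividing `m` the subgroup generated by `p` and `-1` in the multiplicative group modulo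
`r` has an index greater than `K` (`LargeIndex`). There is no condition on the exponents of the primes in `m`
and on the order of `p` modulo `m`; `-1` need not be a power of `p`. Then every tensor product of `2 i` lines
which is of Tate type (`TateLines`) is reduced (`ReducedLines`): after raising `m` to a multiple prime to
`p` and after adding Frobenius pairs `{b, -p b}` (Tate's theorem on divisors) the exponents form a member of
the closure of the characters of Fermat surfaces (Tate, Shioda and Katsura) and of the standard characters
of Aoki. So the Tate class is algebraic. (If the condition holds for one `i` then for all smaller ones.)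
Hence Parshin's conjecture holds for all products of at most `2 i + 1` curves `y ^ q - y = x ^ m`, and for all
Fermat varieties of degree `m` and dimension at most `2 i - 1`, for these `m`, over all finite fields of
characteristic `p`. For given `p` and `i` the condition holds for all `m` composed of the primes of an
infinite set, for example of the primes `r` dividing `p ^ f - 1` and greater than `2 K f + 1` for some `f`.

The proof. By Stickelberger's theorem every odd distribution on `ℤ / m` which is invariant under `p` has the
sum zero over the exponents. Test distributions which are localised at one point and at residues avoided by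
the exponents and their multiples by `± p ^ j` show that the exponents whose order has a given set of
prime divisors are even in number unless `-1` is a power of `p` modulo these primes
(`Pool.Agent.J4.H17.KE.Final`), and the parity criterion of the starting library applies
(`Pool.Agent.J4.H5.AS.Free`).
-/

set_option autoImplicit false

namespace Pool.Agent.Results.MP_27fd67_ag.LargePrimeExponents

open Pool.Agent Pool.Agent.H916T Pool.Agent.H916Q Pool.Agent.J4.H17.KE

/-- The lines of `h^1` of the curve `y ^ q - y = x ^ m`: pairs of a nonzero exponent `a` and a
nontrivial additive character `ψ`. -/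
abbrev Line (k : Type) [Field k] (m : ℕ) : Type :=
  {a : ZMod m // a ≠ 0} × {ψ : AddChar k ℂ // ψ ≠ 1}

/-- The Gauss sum `g(θ ^ a, ψ)` of a line. -/
noncomputable def gauss {k : Type} [Field k] [Fintype k] {m : ℕ} (θ : MulChar k ℂ)
    (x : Line k m) : ℂ := gaussSum (θ ^ x.1.1.val) x.2.1

/-- The tensor product of the `2 i` lines is of Tate type over some finite field: some power of the
product of the Gauss sums is the same power of `q ^ i`. -/
def TateLines {k : Type} [Field k] [Fintype k] {m : ℕ} (θ : MulChar k ℂ) {i : ℕ}
    (x : Fin (2 * i) → Line k m) : Prop :=
  ∃ e : ℕ, 0 < e ∧ (∏ j, gauss θ (x j)) ^ e = ((Fintype.card k : ℂ) ^ i) ^ e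

/-- After raising `m` to a multiple `N * m`, `N` prime to `p`, and adding pairs `{b, -p b}` the
exponents form a member of the closure of the Tate characters of surfaces and the standard characters
of Aoki. -/
def ReducedLines {k : Type} [Field k] {m : ℕ} (p : ℕ) {i : ℕ} (x : Fin (2 * i) → Line k m) :
    Prop :=
  ∃ N : ℕ, 0 < N ∧ p.Coprime N ∧ ∃ t : Multiset (ZMod (N * m)), (0 : ZMod (N * m)) ∉ t ∧
    Generated (N * m)
      (fun t => SurfaceTate p (N * m) t ∨ ∃ q : ℕ, q.Prime ∧ q ∣ N * m ∧ Standard q (N * m) t)
      ((Finset.univ.val.map fun j => (x j).1.1).map
          (fun a => ((N * a.val : ℕ) : ZMod (N * m))) +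
        (t + t.map fun b => -((p : ZMod (N * m)) * b)))

/-- **All tensor products of Tate type of `2 i` lines, large index.** -/
theorem result (p m i K : ℕ) [Fact p.Prime] [NeZero m] (hi : 0 < i) (h4 : ¬ 4 ∣ m)
    (hK : K = if 2 ∣ m then 4 * i else 2 * i) (hI : LargeIndex p m K)
    (k : Type) [Field k] [Fintype k] [CharP k p] (hmk : m ∣ Fintype.card k - 1)
    (θ : MulChar k ℂ) (hθ : orderOf θ = m) (x : Fin (2 * i) → Line k m) (hx : TateLines θ x) :
    ReducedLines p x := by
  have hm : 0 < m := Nat.pos_of_ne_zero (NeZero.ne m)
  have hp : p.Prime := Fact.out
  obtain ⟨e, he, h⟩ := hx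
  obtain ⟨hpm, hrel⟩ := J4.H5.AS.rel_of_tuple hmk θ hθ i (fun j => (x j).1.1)
    (fun j => (x j).1.2) (fun j => (x j).2.1) (fun j => (x j).2.2) e he hi h
  have hcard : Multiset.card (Finset.univ.val.map fun j => (x j).1.1) = 2 * i := by
    rw [Multiset.card_map]
    simp
  have h0 : (0 : ZMod m) ∉ Finset.univ.val.map fun j => (x j).1.1 := by
    intro h0
    obtain ⟨j, -, hj⟩ := Multiset.mem_map.mp h0
    exact (x j).1.2 hj
  have hne : (Finset.univ.val.map fun j => (x j).1.1) ≠ 0 := by
    intro h0
    rw [h0, Multiset.card_zero] at hcard
    omega
  obtain ⟨N, hN, hpN, t, ht, hg⟩ := J4.H5.AS.gen2_of_free hp hm hpm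
    (s := Finset.univ.val.map fun j => (x j).1.1) h0 (by rw [hcard]; exact ⟨i, by omega⟩) hne hrel
    (by
      intro n hn hn2 _ _ hD _ _
      have h2S : 2 ∉ n.primeFactors := fun h => hn2 (Nat.dvd_of_mem_primeFactors h)
      by_cases h2 : 2 ∣ m
      · rw [if_pos h2] at hK
        obtain ⟨d, hd⟩ := h2
        have hd2 : ¬ 2 ∣ d := by
          rintro ⟨e, rfl⟩
          exact h4 ⟨e, by rw [hd]; ring⟩
        have h := par_two hpm hd.symm hd2 hrel hcard.le (K := 2 * i)
          (by rw [show 2 * (2 * i) = K by rw [hK]; ring]; exact hI) h2S hD
        convert h
      · rw [if_neg h2] at hK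
        have h := par_odd hpm h2 hrel hcard.le (K := 2 * i) (by rw [← hK]; exact hI) hD
        convert h)
  exact ⟨N, hN, hpN, t, ht, hg⟩

end Pool.Agent.Results.MP_27fd67_ag.LargePrimeExponents
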