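import Pool.Agent.J4.H5.PF.One

/-!
# For each number of factors one complex Fermat variety decides Parshin's conjecture for all products
# of Artin-Schreier curves `y ^ q - y = x ^ m`

Let `k` be the finite field with `q` elements and characteristic `p`, and let `m` divide `q - 1`.
The motive `h^1` of the smooth projective curve `C` with the equation `y ^ q - y = x ^ m` is, with
coefficients in a cyclotomic field, the sum of lines indexed by the pairs of a nontrivial power
`θ ^ a` of a multiplicative character `θ` of order `m` and a nontrivial additive character `ψ` of
`k`; the Frobenius map of `k` acts on a line by minus the Gauss sum of the pair (Davenport, Hasse,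
Weil). So the motive of a product of `n` curves `C` is a sum of Tate twists of tensor products of at
most `n` such lines. By Soule, Geisser and Kahn the higher rational K-groups of such a tensor product
vanish if it is not of Tate type over any finite field, and also if it is of Tate type and its Tate
class is algebraic.

The theorem. Let `K` be even and let `f` be odd. For EVERY degree `m`, EVERY prime `p` whose order
modulo `m` is `f` (for `f = 1`: `p` congruent to one modulo `m`) and every finite field `k` of
characteristic `p` with `m ∣ q - 1`, every tensor product of at most `K` lines which is of Tate type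
(`TateLines`) is reduced (`ReducedLines (K * f)`): after raising `m` to a multiple prime to `p` and
after adding Frobenius pairs `{b, -p b}` (Tate's theorem on divisors) the exponents form a member of
the closure of the characters of Fermat surfaces (Tate, Shioda and Katsura), of the standard
characters of Aoki, and of Hodge characters which over the complex numbers are in the closure of the
pairs, the standard characters and those Hodge characters with at most `K * f` entries whose degree
divides the fixed number `level (K * f)` and has no prime factor larger than `4 * K * f + 1`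
(`FromOneDegree`).

There are only finitely many of the latter characters, and they do not depend on `m`, `p` and `k`.
They belong to the complex Fermat variety of the degree `level (K * f)` and the dimension `K * f - 2`.
So Parshin's conjecture for ALL products of at most `K` curves `y ^ q - y = x ^ m`, and for all Fermat
varieties of dimension at most `K - 2`, of ALL degrees `m`, over all finite fields of characteristic
congruent to one modulo `m`, follows from the algebraicity of the finitely many Hodge classes of ONE
complex Fermat variety of dimension `K - 2`.

The proof. By Stickelberger's theorem the union of the conjugates `p ^ j s`, `j < f`, of the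
multiset `s` of the exponents is a Hodge character with `f * |s|` entries, and by the theorem of
`Pool.Agent.J4.H26.Eu.One` it comes from the fixed degree. It is `f s` modulo Frobenius pairs, without
any condition on the sum of `s`; and twice `s` is generated in every case by surfaces and standard
characters (`Pool.Agent.J4.H5.AS`). As `f` is odd, `s` is reduced.
-/

set_option autoImplicit false

namespace Pool.Agent.Results.MP_27fd67_ag.OneFermatVariety

open Pool.Agent Pool.Agent.H916T
open Pool.Agent.H916R2 (IsHodge FromLevel)
open Pool.Agent.J4.H26.Fn (factor level)

/-- The lines of `h^1` of the curve `y ^ q - y = x ^ m`: pairs of a nonzero exponent `a` and a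
nontrivial additive character `ψ`. -/
abbrev Line (k : Type) [Field k] (m : ℕ) : Type :=
  {a : ZMod m // a ≠ 0} × {ψ : AddChar k ℂ // ψ ≠ 1}

/-- The Gauss sum `g(θ ^ a, ψ)` of a line. -/
noncomputable def gauss {k : Type} [Field k] [Fintype k] {m : ℕ} (θ : MulChar k ℂ)
    (x : Line k m) : ℂ := gaussSum (θ ^ x.1.1.val) x.2.1

/-- The tensor product of the `2 i` lines is of Tate type over some finite field: some power of the
product of the Gauss sums is the same power of `q ^ i`. -/
def TateLines {k : Type} [Field k] [Fintype k] {m : ℕ} (θ : MulChar k ℂ) {i : ℕ}
    (x : Fin (2 * i) → Line k m) : Prop :=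
  ∃ e : ℕ, 0 < e ∧ (∏ j, gauss θ (x j)) ^ e = ((Fintype.card k : ℂ) ^ i) ^ e

/-- The Hodge characters with at most `L` entries of the degree `M` which come from a degree `D`
that divides `d` and the fixed number `level L` and has no prime factor larger than `4 * L + 1`. -/
def SmallHodge (L d M : ℕ) (u : Multiset (ZMod M)) : Prop :=
  ∃ D : ℕ, D ∣ level L ∧ D ∣ d ∧ (∀ l : ℕ, l.Prime → l ∣ D → l ≤ 4 * L + 1) ∧
    FromLevel M D u ∧ Multiset.card u ≤ L

/-- The multisets of residues modulo `M` which come by multiplication by `c = M / d` from a Hodge
character of a degree `d ∣ M` which, in the degree `factor L * d`, is in the closure of the pairs, the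
standard characters of Aoki and Shioda, and the characters `SmallHodge`. -/
def FromOneDegree (L M : ℕ) (t : Multiset (ZMod M)) : Prop :=
  ∃ c d : ℕ, c * d = M ∧ ∃ s : Multiset (ZMod d), IsHodge d s ∧
    H916R2.Generated (factor L * d) (SmallHodge L d (factor L * d))
      (s.map fun b => ((factor L * b.val : ℕ) : ZMod (factor L * d))) ∧
    t = s.map fun a => ((c * a.val : ℕ) : ZMod M)

/-- After raising `m` to a multiple `N * m`, `N` prime to `p`, and adding pairs `{b, -p b}` the
exponents form a member of the closure of the Tate characters of surfaces, the standard characters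
of Aoki and the Hodge characters `FromOneDegree L`. -/
def ReducedLines (L : ℕ) {k : Type} [Field k] {m : ℕ} (p : ℕ) {i : ℕ}
    (x : Fin (2 * i) → Line k m) : Prop :=
  ∃ N : ℕ, 0 < N ∧ p.Coprime N ∧ ∃ t : Multiset (ZMod (N * m)), (0 : ZMod (N * m)) ∉ t ∧
    Generated (N * m)
      (fun t => SurfaceTate p (N * m) t ∨ (∃ q : ℕ, q.Prime ∧ q ∣ N * m ∧ Standard q (N * m) t) ∨
        FromOneDegree L (N * m) t)
      ((Finset.univ.val.map fun j => (x j).1.1).map
          (fun a => ((N * a.val : ℕ) : ZMod (N * m))) +
        (t + t.map fun b => -((p : ZMod (N * m)) * b)))

/-- **All degrees, at most `K` factors: everything comes from one complex Fermat variety.** -/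
theorem result (p m K i : ℕ) [Fact p.Prime] [NeZero m] (hK : Even K) (hi : 0 < i)
    (hiK : 2 * i ≤ K) (hodd : Odd (orderOf (p : ZMod m)))
    (k : Type) [Field k] [Fintype k] [CharP k p] (hmk : m ∣ Fintype.card k - 1)
    (θ : MulChar k ℂ) (hθ : orderOf θ = m) (x : Fin (2 * i) → Line k m) (hx : TateLines θ x) :
    ReducedLines (K * orderOf (p : ZMod m)) p x := by
  have hm : 0 < m := Nat.pos_of_ne_zero (NeZero.ne m)
  obtain ⟨e, he, h⟩ := hx
  obtain ⟨hpm, hrel⟩ := J4.H5.AS.rel_of_tuple hmk θ hθ i (fun j => (x j).1.1)
    (fun j => (x j).1.2) (fun j => (x j).2.1) (fun j => (x j).2.2) e he hi h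
  have hcard : Multiset.card (Finset.univ.val.map fun j => (x j).1.1) = 2 * i := by
    rw [Multiset.card_map]
    simp
  have h0 : (0 : ZMod m) ∉ Finset.univ.val.map fun j => (x j).1.1 := by
    intro h0
    obtain ⟨j, -, hj⟩ := Multiset.mem_map.mp h0
    exact (x j).1.2 hj
  have hne : (Finset.univ.val.map fun j => (x j).1.1) ≠ 0 := by
    intro h0
    rw [h0, Multiset.card_zero] at hcard
    omega
  obtain ⟨N, hN, hpN, t, ht, hg⟩ := J4.H5.PF.few_one (K := K) Fact.out hm hpm hodd (by omega) hK
    (s := Finset.univ.val.map fun j => (x j).1.1) h0 (by rw [hcard]; exact ⟨i, by omega⟩) hne hrel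
    (by rw [hcard]; exact hiK)
  refine ⟨N, hN, hpN, t, ht, J4.H5.PF.gen_mono (fun t ht => ?_) hg⟩
  rcases ht with (h1 | h1) | h1
  · exact Or.inl h1
  · exact Or.inr (Or.inl h1)
  · exact Or.inr (Or.inr h1)

end Pool.Agent.Results.MP_27fd67_ag.OneFermatVariety
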