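import Pool.Agent.J4.H5.EF.MainP

/-!
# Parshin's conjecture for the products of a variety with independent curves (all elliptic curves,
# general ordinary curves of any genus)

Let `Z` be a smooth projective variety over a finite field whose motive is finite-dimensional in
the sense of Kimura (for instance of abelian type: a curve, an abelian variety, a product of
curves, …). Consider all products `X_S × Z`, where `X_S` is a product of finitely many members of a
family of smooth projective curves `X i`, repetitions allowed, over finite extensions. The family may
be infinite; the condition (`Family`) is that two eigenvalues `x`, `y` of Frobenius on `H^1` which are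
not supersingular are equal or opposite (`x = q / y`) up to roots of unity, or some automorphism of
the field of algebraic numbers fixes `x` and replaces `y` by `q / y`, up to roots of unity; and that
the eigenvalues are supersingular or have only the slopes `0` and `1`. Examples:

* ALL elliptic curves over finite fields, ordinary or supersingular;
* ordinary curves of any genus `g ≥ 1`, if the Galois group of the characteristic polynomial of
  Frobenius on `H^1` is the group of all signed permutations of the `g` pairs of complex conjugate
  roots (this holds for almost all curves, by Chavdarov and Kowalski), and if the splitting fields
  are linearly disjoint for curves with nonisogenous Jacobians;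
* all these together.

We show that Parshin's conjecture for ALL these products is decided by the products with few factors.

* Let `t` be the number of the eigenvalues of Frobenius on the cohomology of `Z` which are not half
  integral powers of `q` times roots of unity (`transRoots`). There is a set `B` of eigenvalues of the
  curves of the family, with at most `t / 2` members up to equality and opposites (up to roots of unity), such
  that Parshin's conjecture for `X_S × Z` follows from Parshin's conjecture for the partial products
  `X_S' × Z` which are small: each member of `S'` has an eigenvalue which is supersingular or
  in `B`, no two of these are opposite, and for a degree `j` with `j + |S'|` even the number of the pairs of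
  equal eigenvalues among them which are not supersingular is at most `lev j ^ 2`. Here `lev j`
  bounds the slopes of `H^j(Z)`: they are between `(j - lev j) / 2` and `(j + lev j) / 2`; so one may
  take `lev j = min (j, 2 dim Z - j)`. Small products have at most `lev j ^ 2 + 1` factors besides `Z`.
* If `lev j = 0` for even `j` and `lev j ≤ 1` for odd `j`, only the products `X i × Z` with one curve
  and `Z` itself remain. In particular for EVERY curve `Z` these are products of two curves (and
  `Z`), for which the conjecture is a theorem of Soulé: Parshin's conjecture holds for all products of an
  arbitrary curve `Z` with members of the family, for instance for all products of an arbitrary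
  curve with any number of elliptic curves.

`H s a b` is the motivic cohomology with coefficients in the field `Qb` of the algebraic numbers of
the part `h_s` of the motive of `X_S × Z` (`IsMotivicSystem`), `Parshin H S` says that
`H^a(X_S × Z, Q(b)) = 0` for `a ≠ 2 b`; by the Chern character (`IsKTheory`) this implies that the
groups `K_m(X_S × Z)`, `m ≥ 1`, are torsion.

The proof. The parts `h_s` which involve `h^0` or `h^2` of a factor, or lines of opposite Frobenius
eigenvalues at two positions, are twists of parts of smaller products. The cohomology of another part
is zero unless some eigenvalue of Frobenius on it is a power `p ^ (n b)` (Kimura, Soulé, Geisser, Kahn): this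
is a multiplicative relation, up to roots of unity, between an eigenvalue `α` on `H^j(Z)`, eigenvalues
`π_k` of the members of `S`, no two of them opposite, and `p`. The slope function `σ ↦ v(σ α)` on
the Galois group of `ℚ` is then minus the sum of the slope functions of the `π_k`. By the condition on
the family those which are not equal are orthogonal for the Haar measure; so the number of the pairs
of equal ones is at most `lev j ^ 2`. By averaging over the stabilizer of `π_k` its slope function is in the
space spanned by the slope functions of the eigenvalues of `Z`, whose dimension is at most `t / 2`.
-/

set_option autoImplicit false

universe u v a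

namespace Pool.Agent.Results.MP_27fd67_ag.ProductsWithIndependentCurves

open Pool.Agent.J4.H5.EL Pool.Agent.J4.H5.EF

/-- **Parshin's conjecture for the products of a variety with independent curves.** -/
theorem result {p : ℕ} [Fact p.Prime] {w : AbsoluteValue Qb ℝ} (hw : IsPadic p w) {ι : Type u}
    (C : Family p w ι) (F : Zeta p) {lev : ℕ → ℕ} (hlev : HasLevel w F lev) :
    ∃ B : Set C.Ev, (∀ T : Finset C.Ev, ↑T ⊆ B →
        (∀ x ∈ T, ∀ y ∈ T, x ≠ y → ¬ C.Sim x y ∧ ¬ C.Op x y) → 2 * T.card ≤ (transRoots F).card) ∧
      ∀ (κ : Type v) (c : κ → ι) (H : (∀ k, Cmp (C.R (c k))) → ℤ → ℤ → Type a)
        [∀ s a b, AddCommGroup (H s a b)] [∀ s a b, Module Qb (H s a b)],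
        IsMotivicSystem C F c H →
        (∀ S, (∀ S' ⊆ S, Small C F lev B c S' → Parshin H S') → Parshin H S) ∧
        (∀ S, Small C F lev B c S → ∃ j ≤ 2 * F.d, Even (j + S.card) ∧ S.card ≤ lev j ^ 2 + 1) ∧
        ((∀ j, lev j ≤ 1) → (∀ j, Even j → lev j = 0) →
          (∀ S, S.card ≤ 1 → Parshin H S) → ∀ S, Parshin H S) ∧
        ∀ S, Parshin H S → ∀ (G : ℕ → Type a) [∀ m, AddCommGroup (G m)], IsKTheory H S G →
          ∀ m, 1 ≤ m → ∀ x : G m, ∃ N : ℕ, 0 < N ∧ N • x = 0 :=
  main_parshin hw C F hlev

end Pool.Agent.Results.MP_27fd67_ag.ProductsWithIndependentCurves
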